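import Pool.Agent.H92.SF.LUT

/-!
# MP_70ba79_ag, THEOREM S, board `sfu_modules`, row NUN: no sections of negative twist
-/

set_option autoImplicit false

namespace Pool.Agent.H45.SFU

open MvPolynomial
open Pool.Agent.H84.SM (dp cr dt)
open Pool.Agent.H3.SF Pool.Agent.H92.SF

theorem ss_zero (δ j0 m n : ℕ) : SS δ j0 m 0 0 0 n 0 0 =
    (δ : ℤ) * (m * (nA n : ℤ) + (2 * j0 * n + 1) * (nC n : ℤ)) := by
  have h1 : ∀ s b : ℕ, max 0 ((δ : ℤ) * (0 + m * ((s : ℤ) + b) +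
      ((0 : ℕ) : ℤ) * m * (((0 : ℕ) : ℤ) - 2 * ((0 : ℕ) : ℤ)) + 2 * j0 * n + 1) -
        ((0 : ℕ) : ℤ) * ((0 : ℕ) : ℤ)) =
      δ * m * ((s + b : ℕ) : ℤ) + δ * (2 * j0 * n + 1) := by
    intro s b
    rw [max_eq_right]
    · push_cast
      ring
    · have : (0 : ℤ) ≤ (δ : ℤ) * (m * ((s : ℤ) + b) + 2 * j0 * n + 1) := by positivity
      push_cast
      linarith
  have h2 : ∀ s : ℕ, ∑ b ∈ Finset.range (n - 3 * s + 1),
      ((δ : ℤ) * m * ((s + b : ℕ) : ℤ) + δ * (2 * j0 * n + 1)) =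
      (δ : ℤ) * m * ((∑ b ∈ Finset.range (n - 3 * s + 1), (s + b) : ℕ) : ℤ) +
        (δ : ℤ) * (2 * j0 * n + 1) * ((n - 3 * s + 1 : ℕ) : ℤ) := by
    intro s
    rw [Finset.sum_add_distrib, ← Finset.mul_sum, Finset.sum_const, Finset.card_range,
      nsmul_eq_mul, Nat.cast_sum]
    ring
  unfold SS
  rw [if_neg (by omega)]
  simp only [h1, Nat.zero_mul, Nat.sub_zero, h2]
  rw [Finset.sum_add_distrib, ← Finset.mul_sum, ← Finset.mul_sum, ← Nat.cast_sum, ← Nat.cast_sum]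
  unfold nA nC
  ring

theorem pf_NUN (hNSA : T_NSA) : T_NUN := by
  intro δ j0 hδ
  refine ⟨1000 * (2 * j0 + 1) ^ 2, fun m hm => ⟨3, fun n hn => ?_⟩⟩
  obtain ⟨h1, h2, -⟩ := hNSA n
  rw [ss_zero]
  have h1' : 27 * (nA n : ℤ) ≤ 2 * ((n : ℤ) + 3) ^ 3 := by exact_mod_cast h1
  have h2' : 6 * (nC n : ℤ) ≤ ((n : ℤ) + 3) ^ 2 := by exact_mod_cast h2
  have hn' : (3 : ℤ) ≤ n := by exact_mod_cast hn
  have hm' : 1000 * (2 * (j0 : ℤ) + 1) ^ 2 ≤ m := by exact_mod_cast hm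
  have hj : (0 : ℤ) ≤ j0 := Int.natCast_nonneg _
  have hδ' : (0 : ℤ) ≤ δ := Int.natCast_nonneg _
  have hm0 : (0 : ℤ) ≤ m := Int.natCast_nonneg _
  set N : ℤ := (n : ℤ) with hN
  set M : ℤ := (m : ℤ) with hM
  set J : ℤ := 2 * (j0 : ℤ) + 1 with hJ
  have hJ1 : 1 ≤ J := by linarith
  have e1 : (N + 3) ^ 3 ≤ 8 * N ^ 3 := by
    have : (N + 3) ^ 3 ≤ (2 * N) ^ 3 := pow_le_pow_left₀ (by linarith) (by linarith) 3
    linarith [mul_pow (2 : ℤ) N 3]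
  have e2 : (N + 3) ^ 2 ≤ 4 * N ^ 2 := by
    have : (N + 3) ^ 2 ≤ (2 * N) ^ 2 := pow_le_pow_left₀ (by linarith) (by linarith) 2
    linarith [mul_pow (2 : ℤ) N 2]
  have e3 : 2 * N * j0 + 1 ≤ N * J := by
    rw [hJ]
    linarith
  have e3' : 2 * (j0 : ℤ) * N + 1 ≤ N * J := by
    rw [hJ]
    linarith
  have f1 : 648 * (nA n : ℤ) ≤ 384 * N ^ 3 := by linarith
  have f2 : 648 * (nC n : ℤ) ≤ 432 * N ^ 2 := by linarith
  have g0 : (0 : ℤ) ≤ nC n := Int.natCast_nonneg _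
  have gA : (0 : ℤ) ≤ nA n := Int.natCast_nonneg _
  have g1 : 648 * (M * (nA n : ℤ) + (2 * j0 * N + 1) * (nC n : ℤ)) ≤
      384 * M * N ^ 3 + 432 * J * N ^ 3 := by
    have a1 : M * (648 * (nA n : ℤ)) ≤ M * (384 * N ^ 3) := mul_le_mul_of_nonneg_left f1 hm0
    have a2 : (2 * (j0 : ℤ) * N + 1) * (648 * (nC n : ℤ)) ≤ (N * J) * (432 * N ^ 2) :=
      mul_le_mul e3' f2 (by linarith) (by positivity)
    linarith
  have g2 : (0 : ℤ) ≤ 648 * (M * (nA n : ℤ) + (2 * j0 * N + 1) * (nC n : ℤ)) := by positivity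
  have g3 : (2 * N * j0 + 1) * (648 * (M * (nA n : ℤ) + (2 * j0 * N + 1) * (nC n : ℤ))) ≤
      (N * J) * (384 * M * N ^ 3 + 432 * J * N ^ 3) :=
    mul_le_mul e3 g1 g2 (by positivity)
  have g4 : 384 * J * M + 432 * J ^ 2 ≤ M ^ 2 := by
    have b1 : J ≤ J ^ 2 := by nlinarith
    have b2 : 384 * J * M ≤ 384 * J ^ 2 * M := by nlinarith
    have b3 : 1 ≤ M := by nlinarith
    have b4 : 432 * J ^ 2 ≤ 432 * J ^ 2 * M := by nlinarith
    have b5 : 1000 * J ^ 2 * M ≤ M * M := mul_le_mul_of_nonneg_right hm' hm0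
    nlinarith
  have g5 : (N * J) * (384 * M * N ^ 3 + 432 * J * N ^ 3) ≤ M ^ 2 * N ^ 4 := by
    have : (N * J) * (384 * M * N ^ 3 + 432 * J * N ^ 3) =
      (384 * J * M + 432 * J ^ 2) * N ^ 4 := by ring
    rw [this]
    exact mul_le_mul_of_nonneg_right g4 (by positivity)
  have g6 := mul_le_mul_of_nonneg_left (g3.trans g5) hδ'
  calc _ = (δ : ℤ) * ((2 * N * j0 + 1) *
        (648 * (M * (nA n : ℤ) + (2 * j0 * N + 1) * (nC n : ℤ)))) := by ring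
    _ ≤ _ := g6
    _ = _ := by ring

end Pool.Agent.H45.SFU
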